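import Mathlib
import Pool.Agent.H447R2.MZ.Basic

/-!
# The exchange `3 3 -> 2 2 2` near the large end of a word doubles the multiple zeta value
-/

set_option autoImplicit false

namespace Pool.Agent.L7h24.RT

open Filter Topology
open Pool.Agent.H447R2.MZ (H H_nil H_cons H_cons_zero H_cons_succ H_nonneg Adm val tendsto_H H_le_val)

/-- sum over `N ≥ M_1 > ... > M_l > m` of the product of the `M_i ^ (- p_i)` -/
noncomputable def e : List ℕ → ℕ → ℕ → ℝ
  | [], _, _ => 1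
  | (a :: p), m, N => ∑ n ∈ Finset.Ico m N, (((n + 1 : ℕ) : ℝ) ^ a)⁻¹ * e p m n

lemma e_nil (m N : ℕ) : e [] m N = 1 := by simp [e]

lemma e_cons (a : ℕ) (p : List ℕ) (m N : ℕ) :
    e (a :: p) m N = ∑ n ∈ Finset.Ico m N, (((n + 1 : ℕ) : ℝ) ^ a)⁻¹ * e p m n := by rw [e]

lemma e_nonneg (p : List ℕ) (m N : ℕ) : 0 ≤ e p m N := by
  induction p generalizing N with
  | nil => simp [e_nil]
  | cons a p ih =>
    rw [e_cons]
    exact Finset.sum_nonneg fun n _ => mul_nonneg (by positivity) (ih n)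

lemma H_split (x : List ℕ) (s : ℕ) (y : List ℕ) (N : ℕ) :
    H (x ++ s :: y) N =
      ∑ n ∈ Finset.range N, (((n + 1 : ℕ) : ℝ) ^ s)⁻¹ * H y n * e x (n + 1) N := by
  induction x generalizing N with
  | nil =>
    rw [List.nil_append, H_cons]
    exact Finset.sum_congr rfl fun n _ => by rw [e_nil, mul_one]
  | cons a x ih =>
    rw [List.cons_append, H_cons]
    simp only [ih, e_cons, Finset.mul_sum]
    rw [Finset.sum_comm' (s := Finset.range N) (t := fun n => Finset.range n)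
      (t' := Finset.range N) (s' := fun n => Finset.Ico (n + 1) N)]
    · exact Finset.sum_congr rfl fun n _ => Finset.sum_congr rfl fun M _ => by ring
    · intro M n
      simp only [Finset.mem_range, Finset.mem_Ico]
      omega

/-- `H y n = 0` if `n` is less than the length of `y` -/
lemma H_zero (y : List ℕ) (n : ℕ) (h : n < y.length) : H y n = 0 := by
  induction y generalizing n with
  | nil => simp at h
  | cons a y ih =>
    rw [H_cons]
    refine Finset.sum_eq_zero fun k hk => ?_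
    rw [ih k (by rw [Finset.mem_range] at hk; rw [List.length_cons] at h; omega), mul_zero]

lemma e_shift (p : List ℕ) (hp : ∀ a ∈ p, a ≤ 3) (m G N : ℕ) (hm : 1 ≤ m) :
    ((m : ℝ) / (m + G)) ^ (3 * p.length) * e p m N ≤ e p (m + G) (N + G) := by
  induction p generalizing N with
  | nil => simp [e_nil]
  | cons a p ih =>
    rw [e_cons, e_cons, Finset.mul_sum]
    have hmr : (1 : ℝ) ≤ m := by exact_mod_cast hm
    have hG0 : (0 : ℝ) ≤ G := Nat.cast_nonneg _
    have hq0 : (0 : ℝ) ≤ (m : ℝ) / (m + G) := by positivity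
    have hq1 : (m : ℝ) / (m + G) ≤ 1 := by
      rw [div_le_one (by positivity)]
      linarith
    have hsum : ∑ n ∈ Finset.Ico (m + G) (N + G), (((n + 1 : ℕ) : ℝ) ^ a)⁻¹ * e p (m + G) n =
        ∑ n ∈ Finset.Ico m N, ((((n + G) + 1 : ℕ) : ℝ) ^ a)⁻¹ * e p (m + G) (n + G) := by
      rw [← Finset.sum_Ico_add' (fun n => (((n + 1 : ℕ) : ℝ) ^ a)⁻¹ * e p (m + G) n) m N G]
    rw [hsum]
    refine Finset.sum_le_sum fun n hn => ?_
    rw [Finset.mem_Ico] at hn
    have hi := ih (fun b hb => hp b (List.mem_cons_of_mem _ hb)) n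
    have ha : a ≤ 3 := hp a List.mem_cons_self
    have hnr : (m : ℝ) ≤ n := by exact_mod_cast hn.1
    have hn1 : (0 : ℝ) < (n : ℝ) + 1 := by positivity
    have hn2 : (0 : ℝ) < (n : ℝ) + G + 1 := by positivity
    have hq : (m : ℝ) / (m + G) ≤ ((n : ℝ) + 1) / ((n : ℝ) + G + 1) := by
      rw [div_le_div_iff₀ (by positivity) hn2]
      nlinarith
    have hfac : ((m : ℝ) / (m + G)) ^ 3 * (((n + 1 : ℕ) : ℝ) ^ a)⁻¹ ≤ ((((n + G) + 1 : ℕ) : ℝ) ^ a)⁻¹ := by
      have h1 : ((m : ℝ) / (m + G)) ^ 3 ≤ ((m : ℝ) / (m + G)) ^ a := pow_le_pow_of_le_one hq0 hq1 ha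
      have h2 : ((m : ℝ) / (m + G)) ^ a ≤ (((n : ℝ) + 1) / ((n : ℝ) + G + 1)) ^ a :=
        pow_le_pow_left₀ hq0 hq a
      have h3 : ((((n + G) + 1 : ℕ) : ℝ) ^ a)⁻¹ =
          (((n : ℝ) + 1) / ((n : ℝ) + G + 1)) ^ a * (((n + 1 : ℕ) : ℝ) ^ a)⁻¹ := by
        push_cast
        rw [div_pow, div_mul_eq_mul_div, mul_inv_cancel₀ (by positivity), one_div]
      rw [h3]
      exact mul_le_mul_of_nonneg_right (h1.trans h2) (by positivity)
    have hlen : 3 * (a :: p).length = 3 + 3 * p.length := by rw [List.length_cons]; ring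
    rw [hlen, pow_add]
    calc ((m : ℝ) / (m + G)) ^ 3 * ((m : ℝ) / (m + G)) ^ (3 * p.length) *
          ((((n + 1 : ℕ) : ℝ) ^ a)⁻¹ * e p m n)
        = (((m : ℝ) / (m + G)) ^ 3 * (((n + 1 : ℕ) : ℝ) ^ a)⁻¹) *
          (((m : ℝ) / (m + G)) ^ (3 * p.length) * e p m n) := by ring
      _ ≤ ((((n + G) + 1 : ℕ) : ℝ) ^ a)⁻¹ * e p (m + G) (n + G) :=
          mul_le_mul hfac hi (mul_nonneg (pow_nonneg hq0 _) (e_nonneg _ _ _)) (by positivity)

lemma e_exch (x : List ℕ) (m G N : ℕ) :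
    (G : ℝ) * e (x ++ [3, 3]) (m + G) N ≤ e (x ++ [2, 2, 2]) m N := by
  induction x generalizing N with
  | nil =>
    simp only [List.nil_append, e_cons, e_nil, mul_one]
    have hsub : ∀ M : ℕ, Finset.Ico (m + G) M ⊆ Finset.Ico m M := fun M =>
      Finset.Ico_subset_Ico_left (by omega)
    calc (G : ℝ) * ∑ a ∈ Finset.Ico (m + G) N, (((a + 1 : ℕ) : ℝ) ^ 3)⁻¹ *
          ∑ b ∈ Finset.Ico (m + G) a, (((b + 1 : ℕ) : ℝ) ^ 3)⁻¹
        ≤ ∑ a ∈ Finset.Ico (m + G) N, (((a + 1 : ℕ) : ℝ) ^ 2)⁻¹ *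
          ∑ b ∈ Finset.Ico m a, (((b + 1 : ℕ) : ℝ) ^ 2)⁻¹ *
            ∑ c ∈ Finset.Ico m b, (((c + 1 : ℕ) : ℝ) ^ 2)⁻¹ := by
          rw [Finset.mul_sum]
          refine Finset.sum_le_sum fun a _ => ?_
          have h1 : (((a + 1 : ℕ) : ℝ) ^ 3)⁻¹ = (((a + 1 : ℕ) : ℝ) ^ 2)⁻¹ * (((a + 1 : ℕ) : ℝ))⁻¹ := by
            rw [← mul_inv, ← pow_succ]
          rw [h1, show (G : ℝ) * ((((a + 1 : ℕ) : ℝ) ^ 2)⁻¹ * (((a + 1 : ℕ) : ℝ))⁻¹ *
              ∑ b ∈ Finset.Ico (m + G) a, (((b + 1 : ℕ) : ℝ) ^ 3)⁻¹) =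
              (((a + 1 : ℕ) : ℝ) ^ 2)⁻¹ * ((G : ℝ) * (((a + 1 : ℕ) : ℝ))⁻¹ *
              ∑ b ∈ Finset.Ico (m + G) a, (((b + 1 : ℕ) : ℝ) ^ 3)⁻¹) from by ring]
          refine mul_le_mul_of_nonneg_left ?_ (by positivity)
          refine le_trans ?_ (Finset.sum_le_sum_of_subset_of_nonneg (hsub a) fun b _ _ => by positivity)
          rw [Finset.mul_sum]
          refine Finset.sum_le_sum fun b hb => ?_
          rw [Finset.mem_Ico] at hb
          have hb1 : (0 : ℝ) < ((b + 1 : ℕ) : ℝ) := by positivity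
          have hab : (((a + 1 : ℕ) : ℝ))⁻¹ ≤ (((b + 1 : ℕ) : ℝ))⁻¹ := by
            apply inv_anti₀ hb1
            exact_mod_cast (by omega : b + 1 ≤ a + 1)
          have hc : (G : ℝ) * (((b + 1 : ℕ) : ℝ) ^ 2)⁻¹ ≤
              ∑ c ∈ Finset.Ico m b, (((c + 1 : ℕ) : ℝ) ^ 2)⁻¹ := by
            have h2 : ∑ c ∈ Finset.Ico m b, (((b + 1 : ℕ) : ℝ) ^ 2)⁻¹ ≤
                ∑ c ∈ Finset.Ico m b, (((c + 1 : ℕ) : ℝ) ^ 2)⁻¹ := by
              refine Finset.sum_le_sum fun c hc => ?_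
              rw [Finset.mem_Ico] at hc
              apply inv_anti₀ (by positivity)
              apply pow_le_pow_left₀ (by positivity)
              exact_mod_cast (by omega : c + 1 ≤ b + 1)
            rw [Finset.sum_const, Nat.card_Ico, nsmul_eq_mul] at h2
            refine le_trans (mul_le_mul_of_nonneg_right ?_ (by positivity)) h2
            exact_mod_cast (by omega : G ≤ b - m)
          have h3 : (((b + 1 : ℕ) : ℝ) ^ 3)⁻¹ = (((b + 1 : ℕ) : ℝ) ^ 2)⁻¹ * (((b + 1 : ℕ) : ℝ))⁻¹ := by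
            rw [← mul_inv, ← pow_succ]
          have h4 : (((b + 1 : ℕ) : ℝ) ^ 2)⁻¹ = (((b + 1 : ℕ) : ℝ))⁻¹ * (((b + 1 : ℕ) : ℝ))⁻¹ := by
            rw [← mul_inv, ← pow_two]
          calc (G : ℝ) * (((a + 1 : ℕ) : ℝ))⁻¹ * (((b + 1 : ℕ) : ℝ) ^ 3)⁻¹
              ≤ (G : ℝ) * (((b + 1 : ℕ) : ℝ))⁻¹ * (((b + 1 : ℕ) : ℝ) ^ 3)⁻¹ := by gcongr
            _ = (((b + 1 : ℕ) : ℝ) ^ 2)⁻¹ * ((G : ℝ) * (((b + 1 : ℕ) : ℝ) ^ 2)⁻¹) := by
                rw [h3]
                conv_rhs => rw [h4]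
                ring_nf
            _ ≤ _ := mul_le_mul_of_nonneg_left hc (by positivity)
      _ ≤ _ := by
          refine Finset.sum_le_sum_of_subset_of_nonneg (hsub N) fun a _ _ => ?_
          refine mul_nonneg (by positivity) (Finset.sum_nonneg fun b _ => ?_)
          exact mul_nonneg (by positivity) (Finset.sum_nonneg fun c _ => by positivity)
  | cons s x ih =>
    rw [List.cons_append, List.cons_append, e_cons, e_cons, Finset.mul_sum]
    calc ∑ n ∈ Finset.Ico (m + G) N, (G : ℝ) * ((((n + 1 : ℕ) : ℝ) ^ s)⁻¹ * e (x ++ [3, 3]) (m + G) n)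
        ≤ ∑ n ∈ Finset.Ico (m + G) N, (((n + 1 : ℕ) : ℝ) ^ s)⁻¹ * e (x ++ [2, 2, 2]) m n := by
          refine Finset.sum_le_sum fun n _ => ?_
          rw [mul_left_comm]
          exact mul_le_mul_of_nonneg_left (ih n) (by positivity)
      _ ≤ _ := Finset.sum_le_sum_of_subset_of_nonneg (Finset.Ico_subset_Ico_left (by omega))
          fun n _ _ => mul_nonneg (by positivity) (e_nonneg _ _ _)

/-- the factor -/
lemma fac (m n : ℕ) (hn : 1 ≤ n) (h : 8 * n ≤ m) : 2 ≤ 8 * ((m : ℝ) / (m + (8 : ℕ))) ^ n := by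
  have hm : (0 : ℝ) < m := by exact_mod_cast (by omega : 0 < m)
  have h1 : ((m : ℝ) + 8) / m ≤ Real.exp (8 / m) := by
    have := Real.add_one_le_exp (8 / (m : ℝ))
    rw [add_div, div_self hm.ne']
    linarith
  have h2 : (((m : ℝ) + 8) / m) ^ n ≤ Real.exp 1 := by
    calc (((m : ℝ) + 8) / m) ^ n ≤ (Real.exp (8 / m)) ^ n := pow_le_pow_left₀ (by positivity) h1 n
      _ = Real.exp (n * (8 / m)) := by rw [← Real.exp_nat_mul]
      _ ≤ Real.exp 1 := by
          apply Real.exp_le_exp.2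
          rw [← mul_div_assoc, div_le_one hm]
          have : (8 : ℝ) * n ≤ m := by exact_mod_cast h
          linarith
  have h3 : Real.exp 1 < 4 := by
    have := Real.exp_one_lt_d9
    linarith
  have h4 : 0 < (((m : ℝ) + 8) / m) ^ n := by positivity
  have h5 : ((m : ℝ) / (m + (8 : ℕ))) ^ n = ((((m : ℝ) + 8) / m) ^ n)⁻¹ := by
    rw [← inv_pow, inv_div]
    norm_num
  rw [h5]
  have h6 : (4 : ℝ)⁻¹ ≤ ((((m : ℝ) + 8) / m) ^ n)⁻¹ := inv_anti₀ h4 (by linarith)
  linarith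

/-- **The exchange.** -/
theorem exch (x y : List ℕ) (hx : ∀ a ∈ x, 2 ≤ a ∧ a ≤ 3) (hy : ∀ a ∈ y, 2 ≤ a)
    (hl : 24 * (x.length + 2) ≤ y.length) :
    2 * val (x ++ ([3, 3] ++ y)) ≤ val (x ++ ([2, 2, 2] ++ y)) := by
  have hadm : ∀ b : List ℕ, (∀ a ∈ b, 2 ≤ a) → Adm b := by
    intro b hb
    refine ⟨fun a ha => le_trans (by norm_num) (hb a ha), fun a t h => hb a ?_⟩
    rw [h]
    exact List.mem_cons_self
  have h3 : Adm (x ++ ([3, 3] ++ y)) := by
    refine hadm _ fun a ha => ?_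
    rw [List.mem_append, List.mem_append] at ha
    rcases ha with ha | ha | ha
    · exact (hx a ha).1
    · simp at ha; omega
    · exact hy a ha
  have h2 : Adm (x ++ ([2, 2, 2] ++ y)) := by
    refine hadm _ fun a ha => ?_
    rw [List.mem_append, List.mem_append] at ha
    rcases ha with ha | ha | ha
    · exact (hx a ha).1
    · simp at ha; omega
    · exact hy a ha
  obtain ⟨s, y', rfl⟩ : ∃ s y', y = s :: y' := by
    cases y with
    | nil => simp at hl
    | cons s y' => exact ⟨s, y', rfl⟩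
  have key : ∀ N : ℕ, 2 * H (x ++ ([3, 3] ++ s :: y')) N ≤ H (x ++ ([2, 2, 2] ++ s :: y')) (N + 8) := by
    intro N
    rw [← List.append_assoc, ← List.append_assoc, H_split, H_split, Finset.mul_sum]
    calc ∑ n ∈ Finset.range N, 2 * ((((n + 1 : ℕ) : ℝ) ^ s)⁻¹ * H y' n * e (x ++ [3, 3]) (n + 1) N)
        ≤ ∑ n ∈ Finset.range N, (((n + 1 : ℕ) : ℝ) ^ s)⁻¹ * H y' n * e (x ++ [2, 2, 2]) (n + 1) (N + 8) := by
          refine Finset.sum_le_sum fun n hn => ?_
          rcases Nat.lt_or_ge n y'.length with hlt | hge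
          · rw [H_zero y' n hlt]
            simp
          · have hlen : (x ++ [3, 3]).length = x.length + 2 := by simp
            have h4 := e_exch x (n + 1) 8 (N + 8)
            have h5 := e_shift (x ++ [3, 3]) (by
              intro a ha
              rw [List.mem_append] at ha
              rcases ha with ha | ha
              · exact (hx a ha).2
              · simp at ha; omega) (n + 1) 8 N (by omega)
            have h6 := fac (n + 1) (3 * (x ++ [3, 3]).length) (by rw [hlen]; omega) (by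
              rw [hlen]
              rw [List.length_cons] at hl
              omega)
            have h7 : 2 * e (x ++ [3, 3]) (n + 1) N ≤ e (x ++ [2, 2, 2]) (n + 1) (N + 8) := by
              refine le_trans ?_ h4
              have h8 : (8 : ℝ) * (((n + 1 : ℕ) : ℝ) / (((n + 1 : ℕ) : ℝ) + (8 : ℕ))) ^ (3 * (x ++ [3, 3]).length) *
                  e (x ++ [3, 3]) (n + 1) N ≤ 8 * e (x ++ [3, 3]) (n + 1 + 8) (N + 8) := by
                rw [mul_assoc]
                exact mul_le_mul_of_nonneg_left h5 (by norm_num)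
              refine le_trans (mul_le_mul_of_nonneg_right h6 (e_nonneg _ _ _)) ?_
              push_cast at h8 ⊢
              exact h8
            have h9 : 0 ≤ (((n + 1 : ℕ) : ℝ) ^ s)⁻¹ * H y' n := mul_nonneg (by positivity) (H_nonneg _ _)
            calc 2 * ((((n + 1 : ℕ) : ℝ) ^ s)⁻¹ * H y' n * e (x ++ [3, 3]) (n + 1) N)
                = (((n + 1 : ℕ) : ℝ) ^ s)⁻¹ * H y' n * (2 * e (x ++ [3, 3]) (n + 1) N) := by ring
              _ ≤ _ := mul_le_mul_of_nonneg_left h7 h9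
      _ ≤ _ := Finset.sum_le_sum_of_subset_of_nonneg (by
            intro a ha
            rw [Finset.mem_range] at ha ⊢
            omega) fun n _ _ => mul_nonneg (mul_nonneg (by positivity) (H_nonneg _ _)) (e_nonneg _ _ _)
  have ht3 := (tendsto_H _ h3).const_mul 2
  refine le_of_tendsto ht3 (Eventually.of_forall fun N => ?_)
  exact (key N).trans (H_le_val _ h2 _)

end Pool.Agent.L7h24.RT
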