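import Mathlib

/-!
# A mean value over sequences of tokens, and the middle binomial coefficient
-/

set_option autoImplicit false

namespace Pool.Agent.L7h24.RT

/-- the mean of `F` of the number of successes in `t` independent trials with success probability `2 / 7` -/
noncomputable def St : ℕ → (ℕ → ℝ) → ℝ
  | 0, F => F 0
  | (t + 1), F => 2 / 7 * St t (fun j => F (j + 1)) + 5 / 7 * St t F

lemma St_zero (F : ℕ → ℝ) : St 0 F = F 0 := by rw [St]
lemma St_succ (t : ℕ) (F : ℕ → ℝ) : St (t + 1) F = 2 / 7 * St t (fun j => F (j + 1)) + 5 / 7 * St t F := by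
  rw [St]

lemma St_mono (t : ℕ) : ∀ F G : ℕ → ℝ, (∀ j, F j ≤ G j) → St t F ≤ St t G := by
  induction t with
  | zero => intro F G h; rw [St_zero, St_zero]; exact h 0
  | succ t ih =>
    intro F G h
    rw [St_succ, St_succ]
    have h1 := ih (fun j => F (j + 1)) (fun j => G (j + 1)) fun j => h _
    have h2 := ih F G h
    linarith

lemma St_lin (t : ℕ) : ∀ (F : ℕ → ℝ) (a b : ℝ), St t (fun j => a + b * F j) = a + b * St t F := by
  induction t with
  | zero => intro F a b; rw [St_zero, St_zero]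
  | succ t ih =>
    intro F a b
    rw [St_succ, St_succ, ih (fun j => F (j + 1)) a b, ih F a b]
    ring

lemma St_sq (t : ℕ) : ∀ c : ℝ, St t (fun j => ((j : ℝ) - c) ^ 2) = t * (10 / 49) + (t * (2 / 7) - c) ^ 2 := by
  induction t with
  | zero => intro c; rw [St_zero]; push_cast; ring
  | succ t ih =>
    intro c
    rw [St_succ, ih c]
    have h := ih (c - 1)
    have h2 : (fun j : ℕ => (((j + 1 : ℕ) : ℝ) - c) ^ 2) = fun j : ℕ => ((j : ℝ) - (c - 1)) ^ 2 := by
      funext j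
      push_cast
      ring
    rw [h2, h]
    push_cast
    ring

/-- the comparison function -/
noncomputable def F0 (j : ℕ) : ℝ := 1 / Real.sqrt (j + 1)

lemma F0_nonneg (j : ℕ) : 0 ≤ F0 j := by unfold F0; positivity

lemma F0_anti {i j : ℕ} (h : i ≤ j) : F0 j ≤ F0 i := by
  unfold F0
  have h1 : (i : ℝ) ≤ j := by exact_mod_cast h
  apply one_div_le_one_div_of_le
  · positivity
  · exact Real.sqrt_le_sqrt (by linarith)

lemma F0_le_one (j : ℕ) : F0 j ≤ 1 := by
  have := F0_anti (Nat.zero_le j)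
  refine this.trans ?_
  simp [F0]

lemma St_F0 (t : ℕ) (ht : 1 ≤ t) : St t F0 ≤ 13 / Real.sqrt t := by
  have htr : (1 : ℝ) ≤ t := by exact_mod_cast ht
  have ht0 : (0 : ℝ) < t := by linarith
  set α : ℝ := Real.sqrt 7 / Real.sqrt t with hα
  set β : ℝ := 49 / (t : ℝ) ^ 2 with hβ
  have hα0 : 0 ≤ α := by positivity
  have hβ0 : 0 ≤ β := by positivity
  have hpt : ∀ j : ℕ, F0 j ≤ α + β * ((j : ℝ) - t * (2 / 7)) ^ 2 := by
    intro j
    rcases le_or_gt ((t : ℝ) / 7) (j + 1) with h | h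
    · have h1 : F0 j ≤ α := by
        rw [hα, ← Real.sqrt_div (by norm_num)]
        unfold F0
        rw [one_div, ← Real.sqrt_inv]
        apply Real.sqrt_le_sqrt
        rw [inv_le_comm₀ (by positivity) (by positivity), inv_div]
        exact h
      have h2 : 0 ≤ β * ((j : ℝ) - t * (2 / 7)) ^ 2 := by positivity
      linarith
    · have h1 : (t : ℝ) / 7 ≤ t * (2 / 7) - j := by linarith
      have h2 : ((t : ℝ) / 7) ^ 2 ≤ ((j : ℝ) - t * (2 / 7)) ^ 2 := by
        rw [show ((j : ℝ) - t * (2 / 7)) ^ 2 = (t * (2 / 7) - j) ^ 2 by ring]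
        exact pow_le_pow_left₀ (by positivity) h1 2
      have h3 : β * ((t : ℝ) / 7) ^ 2 = 1 := by
        rw [hβ]
        field_simp
        norm_num
      have h4 := mul_le_mul_of_nonneg_left h2 hβ0
      have h5 := F0_le_one j
      linarith
  have h1 := St_mono t _ _ hpt
  rw [St_lin t (fun j => ((j : ℝ) - t * (2 / 7)) ^ 2) α β, St_sq] at h1
  have h2 : α + β * (t * (10 / 49) + ((t : ℝ) * (2 / 7) - t * (2 / 7)) ^ 2) = α + 10 / t := by
    rw [hβ]
    field_simp
    ring
  rw [h2] at h1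
  refine h1.trans ?_
  have h3 : 10 / (t : ℝ) ≤ 10 / Real.sqrt t := by
    apply div_le_div_of_nonneg_left (by norm_num) (by positivity)
    rw [Real.sqrt_le_left (by linarith)]
    nlinarith
  have h4 : Real.sqrt 7 ≤ 3 := by
    rw [Real.sqrt_le_left (by norm_num)]
    norm_num
  have h5 : α ≤ 3 / Real.sqrt t := by
    rw [hα]
    exact div_le_div_of_nonneg_right h4 (by positivity)
  have h6 : 3 / Real.sqrt t + 10 / Real.sqrt t = 13 / Real.sqrt t := by ring
  linarith

lemma cb_sq (n : ℕ) : n.centralBinom ^ 2 * (2 * n + 1) ≤ 16 ^ n := by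
  induction n with
  | zero => simp
  | succ n ih =>
    have h := Nat.succ_mul_centralBinom_succ n
    have h1 : (n + 1) ^ 2 * ((n + 1).centralBinom ^ 2 * (2 * (n + 1) + 1)) =
        4 * (2 * n + 1) * (2 * n + 3) * (n.centralBinom ^ 2 * (2 * n + 1)) := by
      calc (n + 1) ^ 2 * ((n + 1).centralBinom ^ 2 * (2 * (n + 1) + 1))
          = ((n + 1) * (n + 1).centralBinom) ^ 2 * (2 * n + 3) := by ring
        _ = (2 * (2 * n + 1) * n.centralBinom) ^ 2 * (2 * n + 3) := by rw [h]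
        _ = _ := by ring
    have h2 : (n + 1) ^ 2 * ((n + 1).centralBinom ^ 2 * (2 * (n + 1) + 1)) ≤ (n + 1) ^ 2 * 16 ^ (n + 1) := by
      rw [h1]
      calc 4 * (2 * n + 1) * (2 * n + 3) * (n.centralBinom ^ 2 * (2 * n + 1))
          ≤ 4 * (2 * n + 1) * (2 * n + 3) * 16 ^ n := Nat.mul_le_mul_left _ ih
        _ ≤ (16 * (n + 1) ^ 2) * 16 ^ n := by
            apply Nat.mul_le_mul_right
            nlinarith
        _ = _ := by ring
    exact Nat.le_of_mul_le_mul_left h2 (by positivity)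

lemma mid_sq (j : ℕ) : (j.choose (j / 2)) ^ 2 * (j + 1) ≤ 4 ^ j := by
  rcases Nat.even_or_odd' j with ⟨n, rfl | rfl⟩
  · rw [Nat.mul_div_cancel_left _ (by norm_num)]
    have := cb_sq n
    rw [Nat.centralBinom] at this
    rw [pow_mul]
    exact this
  · have h1 : (2 * n + 1) / 2 = n := by omega
    rw [h1]
    have h2 := cb_sq (n + 1)
    have h3 : (n + 1).centralBinom = 2 * (2 * n + 1).choose n := by
      rw [Nat.centralBinom, show 2 * (n + 1) = (2 * n + 1) + 1 by ring, Nat.choose_succ_succ,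
        Nat.choose_symm_half]
      ring
    rw [h3] at h2
    have h4 : (4 : ℕ) ^ (2 * n + 1) * 4 = 16 ^ (n + 1) := by
      rw [pow_succ, pow_mul, pow_succ]
      norm_num
      ring
    have h5 : ((2 * n + 1).choose n) ^ 2 * (2 * n + 1 + 1) * 4 ≤ 4 ^ (2 * n + 1) * 4 := by
      rw [h4]
      refine le_trans ?_ h2
      have : (2 * (2 * n + 1).choose n) ^ 2 * (2 * (n + 1) + 1) =
          ((2 * n + 1).choose n) ^ 2 * (2 * n + 1 + 1) * 4 + ((2 * n + 1).choose n) ^ 2 * 4 := by ring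
      omega
    exact Nat.le_of_mul_le_mul_right h5 (by norm_num)

lemma mid_le (j : ℕ) : ((j.choose (j / 2) : ℕ) : ℝ) ≤ 2 ^ j * F0 j := by
  unfold F0
  have h := mid_sq j
  have h1 : (((j.choose (j / 2) : ℕ) : ℝ)) ^ 2 * (j + 1) ≤ (2 ^ j) ^ 2 := by
    have : ((j.choose (j / 2) : ℕ) : ℝ) ^ 2 * (j + 1) ≤ 4 ^ j := by exact_mod_cast h
    refine this.trans (le_of_eq ?_)
    rw [← pow_mul, mul_comm, pow_mul]
    norm_num
  have hj : (0 : ℝ) < (j : ℝ) + 1 := by positivity
  rw [mul_one_div, le_div_iff₀ (Real.sqrt_pos.2 hj)]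
  have h2 : (((j.choose (j / 2) : ℕ) : ℝ) * Real.sqrt (j + 1)) ^ 2 ≤ (2 ^ j) ^ 2 := by
    rw [mul_pow, Real.sq_sqrt hj.le]
    exact h1
  exact (pow_le_pow_iff_left₀ (by positivity) (by positivity) two_ne_zero).1 h2

end Pool.Agent.L7h24.RT
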