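import Mathlib

/-!
# Words in the letters two and three: tokens and skeletons
-/

set_option autoImplicit false

namespace Pool.Agent.L7h24.RT

/-- the words of weight `k` in the letters `2`, `3` -/
def W : ℕ → Finset (List ℕ)
  | 0 => {[]}
  | 1 => ∅
  | 2 => {[2]}
  | (n + 3) => (W (n + 1)).image (List.cons 2) ∪ (W n).image (List.cons 3)

lemma mem_W : ∀ (k : ℕ) (w : List ℕ), w ∈ W k ↔ (∀ a ∈ w, a = 2 ∨ a = 3) ∧ w.sum = k
  | 0, w => by
    rw [W, Finset.mem_singleton]
    constructor
    · rintro rfl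
      simp
    · rintro ⟨h1, h2⟩
      cases w with
      | nil => rfl
      | cons a w =>
        rw [List.sum_cons] at h2
        rcases h1 a List.mem_cons_self with h | h <;> omega
  | 1, w => by
    rw [W]
    simp only [Finset.notMem_empty, false_iff]
    rintro ⟨h1, h2⟩
    cases w with
    | nil => simp at h2
    | cons a w =>
      rw [List.sum_cons] at h2
      rcases h1 a List.mem_cons_self with h | h <;> omega
  | 2, w => by
    rw [W, Finset.mem_singleton]
    constructor
    · rintro rfl
      simp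
    · rintro ⟨h1, h2⟩
      cases w with
      | nil => simp at h2
      | cons a w =>
        rw [List.sum_cons] at h2
        have h3 := h1 a List.mem_cons_self
        have hw : w = [] := by
          cases w with
          | nil => rfl
          | cons b w =>
            rw [List.sum_cons] at h2
            rcases h1 b (List.mem_cons_of_mem _ List.mem_cons_self) with h | h <;> omega
        subst hw
        simp at h2
        rw [h2]
  | (n + 3), w => by
    rw [W, Finset.mem_union, Finset.mem_image, Finset.mem_image]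
    constructor
    · rintro (⟨v, hv, rfl⟩ | ⟨v, hv, rfl⟩)
      · rw [mem_W] at hv
        refine ⟨fun a ha => ?_, by rw [List.sum_cons, hv.2]; ring⟩
        rcases List.mem_cons.1 ha with h | h
        · exact Or.inl h
        · exact hv.1 a h
      · rw [mem_W] at hv
        refine ⟨fun a ha => ?_, by rw [List.sum_cons, hv.2]; ring⟩
        rcases List.mem_cons.1 ha with h | h
        · exact Or.inr h
        · exact hv.1 a h
    · rintro ⟨h1, h2⟩
      cases w with
      | nil => simp at h2
      | cons a w =>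
        rw [List.sum_cons] at h2
        have h3 : ∀ b ∈ w, b = 2 ∨ b = 3 := fun b hb => h1 b (List.mem_cons_of_mem _ hb)
        rcases h1 a List.mem_cons_self with h | h
        · left
          exact ⟨w, (mem_W _ _).2 ⟨h3, by omega⟩, by rw [h]⟩
        · right
          exact ⟨w, (mem_W _ _).2 ⟨h3, by omega⟩, by rw [h]⟩

/-- the number of words -/
def d (k : ℕ) : ℕ := (W k).card

lemma d_rec (n : ℕ) : d (n + 3) = d (n + 1) + d n := by
  rw [d, W, Finset.card_union_of_disjoint, Finset.card_image_of_injective _ (List.cons_injective),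
    Finset.card_image_of_injective _ (List.cons_injective)]
  · rfl
  · rw [Finset.disjoint_left]
    intro w h1 h2
    rw [Finset.mem_image] at h1 h2
    obtain ⟨u, _, rfl⟩ := h1
    obtain ⟨v, _, h⟩ := h2
    have := (List.cons.inj h).1
    omega

lemma d_zero : d 0 = 1 := by simp [d, W]
lemma d_one : d 1 = 0 := by simp [d, W]
lemma d_two : d 2 = 1 := by simp [d, W]

lemma d_pos : ∀ k : ℕ, 2 ≤ k → 1 ≤ d k
  | 0, h => by omega
  | 1, h => by omega
  | 2, _ => by rw [d_two]
  | 3, _ => by rw [d_rec 0, d_one, d_zero]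
  | (n + 4), _ => by
    have := d_rec (n + 1)
    have h2 := d_pos (n + 2) (by omega)
    rw [show n + 1 + 3 = n + 4 by omega, show n + 1 + 1 = n + 2 by omega] at this
    omega

/-- the recursion for the five code words -/
lemma d_seven (n : ℕ) : d (n + 7) = 2 * d (n + 1) + 2 * d (n + 2) + d n := by
  have h1 := d_rec (n + 4)
  have h2 := d_rec (n + 2)
  have h3 := d_rec (n + 1)
  have h4 := d_rec n
  rw [show n + 4 + 3 = n + 7 by omega, show n + 4 + 1 = n + 5 by omega] at h1
  rw [show n + 2 + 3 = n + 5 by omega, show n + 2 + 1 = n + 3 by omega] at h2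
  rw [show n + 1 + 3 = n + 4 by omega, show n + 1 + 1 = n + 2 by omega] at h3
  omega

lemma d_ratio : ∀ n : ℕ, d (n + 8) ≤ 7 * d (n + 2)
  | 0 => by
    have h := d_seven 1
    have h3 : d 3 = 1 := by rw [d_rec 0, d_one, d_zero]
    rw [show 1 + 7 = 0 + 8 by omega, show 1 + 1 = 2 by omega, show 1 + 2 = 3 by omega, d_two, h3, d_one] at h
    rw [show 0 + 2 = 2 by omega, d_two]
    omega
  | 1 => by
    have h := d_seven 2
    have h3 : d 3 = 1 := by rw [d_rec 0, d_one, d_zero]
    have h4 : d 4 = 1 := by rw [d_rec 1, d_one]; simp [d_two]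
    rw [show 2 + 7 = 1 + 8 by omega, show 2 + 1 = 3 by omega, show 2 + 2 = 4 by omega, d_two, h3, h4] at h
    rw [show 1 + 2 = 3 by omega, h3]
    omega
  | 2 => by
    have h := d_seven 3
    have h3 : d 3 = 1 := by rw [d_rec 0, d_one, d_zero]
    have h4 : d 4 = 1 := by rw [d_rec 1, d_one]; simp [d_two]
    have h5 : d 5 = 2 := by rw [d_rec 2]; simp [d_two, h3]
    rw [show 3 + 7 = 2 + 8 by omega, show 3 + 1 = 4 by omega, show 3 + 2 = 5 by omega, h3, h4, h5] at h
    rw [show 2 + 2 = 4 by omega, h4]
    omega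
  | (n + 3) => by
    have h1 := d_ratio n
    have h2 := d_ratio (n + 1)
    have h3 : d (n + 3 + 8) = d (n + 1 + 8) + d (n + 8) := d_rec (n + 8)
    have h4 : d (n + 3 + 2) = d (n + 1 + 2) + d (n + 2) := d_rec (n + 2)
    omega

/-- the tokens: the empty list stands for the pair `3 3`, `2 2 2` -/
def Tok : Finset (List ℕ) := {[], [3, 2], [2, 3], [2, 2, 3]}

/-- the weight of a token -/
def wtT (a : List ℕ) : ℕ := if a = [] then 6 else a.sum

/-- skeletons with `t` tokens -/
def Sk : ℕ → Finset (List (List ℕ))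
  | 0 => {[]}
  | (t + 1) => (Tok ×ˢ Sk t).image (fun p => p.1 :: p.2)

lemma sum_Sk {M : Type*} [AddCommMonoid M] (t : ℕ) (f : List (List ℕ) → M) :
    ∑ σ ∈ Sk (t + 1), f σ = ∑ a ∈ Tok, ∑ σ ∈ Sk t, f (a :: σ) := by
  rw [Sk, Finset.sum_image, Finset.sum_product]
  rintro ⟨a, σ⟩ _ ⟨b, τ⟩ _ h
  have := List.cons.inj h
  exact Prod.ext this.1 this.2

lemma sum_Tok {M : Type*} [AddCommMonoid M] (f : List ℕ → M) :
    ∑ a ∈ Tok, f a = f [] + (f [3, 2] + (f [2, 3] + f [2, 2, 3])) := by
  rw [Tok, Finset.sum_insert (by decide), Finset.sum_insert (by decide), Finset.sum_insert (by decide),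
    Finset.sum_singleton]

/-- the weight of a skeleton -/
def wt (σ : List (List ℕ)) : ℕ := (σ.map wtT).sum

/-- the number of exchangeable places -/
def stars (σ : List (List ℕ)) : ℕ := σ.count []

/-- the word of a skeleton, a set of exchanged places (`i` is the number of the first place) -/
def ex : List (List ℕ) → ℕ → Finset ℕ → List ℕ
  | [], _, _ => []
  | ([] :: σ), i, A => (if i ∈ A then [2, 2, 2] else [3, 3]) ++ ex σ (i + 1) A
  | ((a :: l) :: σ), i, A => (a :: l) ++ ex σ i A

lemma ex_nil (i : ℕ) (A : Finset ℕ) : ex [] i A = [] := by rw [ex]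
lemma ex_star (σ : List (List ℕ)) (i : ℕ) (A : Finset ℕ) :
    ex ([] :: σ) i A = (if i ∈ A then [2, 2, 2] else [3, 3]) ++ ex σ (i + 1) A := by rw [ex]
lemma ex_tok (a : ℕ) (l : List ℕ) (σ : List (List ℕ)) (i : ℕ) (A : Finset ℕ) :
    ex ((a :: l) :: σ) i A = (a :: l) ++ ex σ i A := by rw [ex]

lemma ex_congr (σ : List (List ℕ)) (i : ℕ) (A B : Finset ℕ) (h : ∀ n, i ≤ n → (n ∈ A ↔ n ∈ B)) :
    ex σ i A = ex σ i B := by
  induction σ generalizing i with
  | nil => rw [ex_nil, ex_nil]
  | cons a σ ih =>
    cases a with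
    | nil =>
      rw [ex_star, ex_star, ih (i + 1) fun n hn => h n (by omega)]
      simp only [h i le_rfl]
    | cons a l => rw [ex_tok, ex_tok, ih i h]

lemma mem_Tok {a : List ℕ} (h : a ∈ Tok) : a = [] ∨ a = [3, 2] ∨ a = [2, 3] ∨ a = [2, 2, 3] := by
  simpa [Tok] using h

lemma mem_Sk_cons {t : ℕ} {τ : List (List ℕ)} (h : τ ∈ Sk (t + 1)) :
    ∃ a ∈ Tok, ∃ σ ∈ Sk t, τ = a :: σ := by
  rw [Sk, Finset.mem_image] at h
  obtain ⟨p, hp, rfl⟩ := h
  rw [Finset.mem_product] at hp
  exact ⟨p.1, hp.1, p.2, hp.2, rfl⟩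

lemma cons_mem_Sk {t : ℕ} {a : List ℕ} {σ : List (List ℕ)} (ha : a ∈ Tok) (hσ : σ ∈ Sk t) :
    a :: σ ∈ Sk (t + 1) := by
  rw [Sk, Finset.mem_image]
  exact ⟨(a, σ), Finset.mem_product.2 ⟨ha, hσ⟩, rfl⟩

lemma wt_le (t : ℕ) (σ : List (List ℕ)) (h : σ ∈ Sk t) : wt σ ≤ 7 * t := by
  induction t generalizing σ with
  | zero =>
    rw [Sk, Finset.mem_singleton] at h
    subst h
    simp [wt]
  | succ t ih =>
    obtain ⟨a, ha, σ, hσ, rfl⟩ := mem_Sk_cons h
    have h1 := ih σ hσ
    have h2 : wtT a ≤ 7 := by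
      rcases mem_Tok ha with rfl | rfl | rfl | rfl <;> simp [wtT]
    rw [wt, List.map_cons, List.sum_cons]
    rw [wt] at h1
    omega

/-- every word of weight at least `7 t` begins with `t` code words -/
lemma parse (t : ℕ) : ∀ (k i : ℕ) (w : List ℕ), w ∈ W k → 7 * t ≤ k →
    ∃ σ ∈ Sk t, ∃ A ⊆ Finset.Ico i (i + stars σ), ∃ z ∈ W (k - wt σ), w = ex σ i A ++ z := by
  induction t with
  | zero =>
    intro k i w hw _
    refine ⟨[], by simp [Sk], ∅, Finset.empty_subset _, w, by simpa [wt] using hw, by simp [ex_nil]⟩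
  | succ t ih =>
    intro k i w hw hk
    rw [mem_W] at hw
    -- the first code word
    have hcase : ∃ w', (w = [3, 3] ++ w' ∨ w = [2, 2, 2] ++ w') ∨
        (w = [3, 2] ++ w' ∨ w = [2, 3] ++ w' ∨ w = [2, 2, 3] ++ w') := by
      obtain ⟨h1, h2⟩ := hw
      rcases w with _ | ⟨a, w⟩
      · simp at h2; omega
      rcases w with _ | ⟨b, w⟩
      · rcases h1 a (by simp) with h | h <;> simp at h2 <;> omega
      have ha := h1 a (by simp)
      have hb := h1 b (by simp)
      rcases ha with rfl | rfl
      · rcases hb with rfl | rfl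
        · rcases w with _ | ⟨c, w⟩
          · simp at h2; omega
          rcases h1 c (by simp) with rfl | rfl
          · exact ⟨w, Or.inl (Or.inr rfl)⟩
          · exact ⟨w, Or.inr (Or.inr (Or.inr rfl))⟩
        · exact ⟨w, Or.inr (Or.inr (Or.inl rfl))⟩
      · rcases hb with rfl | rfl
        · exact ⟨w, Or.inr (Or.inl rfl)⟩
        · exact ⟨w, Or.inl (Or.inl rfl)⟩
    obtain ⟨w', hw'⟩ := hcase
    have hsub : ∀ p : List ℕ, w = p ++ w' → w' ∈ W (k - p.sum) ∧ p.sum ≤ k := by
      intro p hp
      rw [hp, List.sum_append] at hw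
      refine ⟨(mem_W _ _).2 ⟨fun a ha => hw.1 a (List.mem_append_right _ ha), by omega⟩, by omega⟩
    have htok : ∀ a ∈ Tok, a ≠ [] → w = a ++ w' →
        ∃ σ ∈ Sk (t + 1), ∃ A ⊆ Finset.Ico i (i + stars σ), ∃ z ∈ W (k - wt σ), w = ex σ i A ++ z := by
      intro a ha hane hwa
      obtain ⟨hm, hle⟩ := hsub a hwa
      have hs7 : a.sum ≤ 7 := by
        rcases mem_Tok ha with rfl | rfl | rfl | rfl <;> simp
      obtain ⟨σ, hσ, A, hA, z, hz, he⟩ := ih (k - a.sum) i w' hm (by omega)
      refine ⟨a :: σ, cons_mem_Sk ha hσ, A, ?_, z, ?_, ?_⟩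
      · have : stars (a :: σ) = stars σ := by
          rw [stars, stars, List.count_cons]
          simp [hane]
        rw [this]
        exact hA
      · have : wt (a :: σ) = a.sum + wt σ := by
          rw [wt, wt, List.map_cons, List.sum_cons, wtT, if_neg hane]
        rw [this, ← Nat.sub_sub]
        exact hz
      · rw [hwa, he]
        rcases a with _ | ⟨b, l⟩
        · exact absurd rfl hane
        · rw [ex_tok, List.append_assoc]
    have hstar : ∀ p : List ℕ, p.sum = 6 → ∀ P : Prop, [Decidable P] → (p = if P then [2, 2, 2] else [3, 3]) →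
        w = p ++ w' →
        ∃ σ ∈ Sk (t + 1), ∃ A ⊆ Finset.Ico i (i + stars σ), ∃ z ∈ W (k - wt σ), w = ex σ i A ++ z := by
      intro p hp P _ hP hwp
      obtain ⟨hm, hle⟩ := hsub p hwp
      obtain ⟨σ, hσ, A, hA, z, hz, he⟩ := ih (k - p.sum) (i + 1) w' hm (by omega)
      have hst : stars ([] :: σ) = stars σ + 1 := by
        rw [stars, stars, List.count_cons]
        simp
      have hwt : wt ([] :: σ) = 6 + wt σ := by
        rw [wt, wt, List.map_cons, List.sum_cons, wtT, if_pos rfl]
      have hi : i ∉ A := fun h => by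
        have := Finset.mem_Ico.1 (hA h)
        omega
      refine ⟨[] :: σ, cons_mem_Sk (by simp [Tok]) hσ, if P then insert i A else A, ?_, z, ?_, ?_⟩
      · rw [hst]
        intro n hn
        have h1 : n = i ∨ n ∈ A := by
          split_ifs at hn with h
          · exact Finset.mem_insert.1 hn
          · exact Or.inr hn
        rw [Finset.mem_Ico]
        rcases h1 with h1 | h1
        · omega
        · have := Finset.mem_Ico.1 (hA h1)
          omega
      · rw [hwt, ← Nat.sub_sub, ← hp]
        exact hz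
      · rw [hwp, he, ex_star, hP]
        have h2 : ex σ (i + 1) (if P then insert i A else A) = ex σ (i + 1) A := by
          refine ex_congr _ _ _ _ fun n hn => ?_
          split_ifs with h
          · rw [Finset.mem_insert]
            constructor
            · rintro (h3 | h3)
              · omega
              · exact h3
            · exact Or.inr
          · rfl
        rw [h2, List.append_assoc]
        congr 1
        by_cases h : P
        · rw [if_pos h, if_pos h, if_pos (Finset.mem_insert_self _ _)]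
        · rw [if_neg h, if_neg h, if_neg hi]
    rcases hw' with (h | h) | (h | h | h)
    · exact hstar [3, 3] (by simp) False (by simp) h
    · exact hstar [2, 2, 2] (by simp) True (by simp) h
    · exact htok _ (by simp [Tok]) (by simp) h
    · exact htok _ (by simp [Tok]) (by simp) h
    · exact htok _ (by simp [Tok]) (by simp) h

end Pool.Agent.L7h24.RT
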