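import Mathlib
import Pool.Agent.L7h24.RT.Ex
import Pool.Agent.L7h24.RT.Wd
import Pool.Agent.L7h24.RT.St

/-!
# The number of words of weight `k` with a value in a dyadic interval
-/

set_option autoImplicit false

namespace Pool.Agent.L7h24.RT

open Pool.Agent.H447R2.MZ (val)

lemma ex_letters (σ : List (List ℕ)) (hσ : ∀ a ∈ σ, a ∈ Tok) (i : ℕ) (A : Finset ℕ) :
    ∀ a ∈ ex σ i A, a = 2 ∨ a = 3 := by
  induction σ generalizing i with
  | nil => intro a ha; rw [ex_nil] at ha; simp at ha
  | cons b σ ih =>
    have ih' := fun i => ih (fun a ha => hσ a (List.mem_cons_of_mem _ ha)) i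
    have hb := hσ b List.mem_cons_self
    intro a ha
    cases b with
    | nil =>
      rw [ex_star, List.mem_append] at ha
      rcases ha with ha | ha
      · split_ifs at ha <;> simp at ha <;> omega
      · exact ih' _ a ha
    | cons c l =>
      rw [ex_tok, List.mem_append] at ha
      rcases ha with ha | ha
      · rcases mem_Tok hb with h | h | h | h
        · simp at h
        · rw [h] at ha; simp at ha; omega
        · rw [h] at ha; simp at ha; omega
        · rw [h] at ha; simp at ha; omega
      · exact ih' _ a ha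

lemma ex_insert (σ : List (List ℕ)) (hσ : ∀ a ∈ σ, a ∈ Tok) (i n : ℕ) (A : Finset ℕ) (hn : n ∉ A)
    (h1 : i ≤ n) (h2 : n < i + stars σ) :
    ∃ u v : List ℕ, ex σ i A = u ++ ([3, 3] ++ v) ∧ ex σ i (insert n A) = u ++ ([2, 2, 2] ++ v) ∧
      u.length + 2 ≤ 3 * σ.length := by
  induction σ generalizing i with
  | nil => simp [stars] at h2; omega
  | cons b σ ih =>
    have ih' := ih (fun a ha => hσ a (List.mem_cons_of_mem _ ha))
    have hb := hσ b List.mem_cons_self
    cases b with
    | nil =>
      have hst : stars ([] :: σ) = stars σ + 1 := by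
        rw [stars, stars, List.count_cons]
        simp
      rw [hst] at h2
      rw [ex_star, ex_star]
      rcases Nat.eq_or_lt_of_le h1 with h | h
      · subst h
        refine ⟨[], ex σ (i + 1) A, ?_, ?_, ?_⟩
        · rw [if_neg hn, List.nil_append]
        · rw [if_pos (Finset.mem_insert_self _ _), List.nil_append]
          congr 1
          refine ex_congr _ _ _ _ fun m hm => ?_
          rw [Finset.mem_insert]
          constructor
          · rintro (h3 | h3)
            · omega
            · exact h3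
          · exact Or.inr
        · simp only [List.length_nil, List.length_cons]
          omega
      · obtain ⟨u, v, h3, h4, h5⟩ := ih' (i + 1) h (by omega)
        have hi : (i ∈ insert n A) ↔ (i ∈ A) := by
          rw [Finset.mem_insert]
          constructor
          · rintro (h6 | h6)
            · omega
            · exact h6
          · exact Or.inr
        refine ⟨(if i ∈ A then [2, 2, 2] else [3, 3]) ++ u, v, ?_, ?_, ?_⟩
        · rw [h3, List.append_assoc]
        · rw [h4, List.append_assoc]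
          simp only [hi]
        · rw [List.length_append, List.length_cons]
          have : (if i ∈ A then [2, 2, 2] else [3, 3] : List ℕ).length ≤ 3 := by split_ifs <;> simp
          omega
    | cons c l =>
      have hst : stars ((c :: l) :: σ) = stars σ := by
        rw [stars, stars, List.count_cons]
        simp
      rw [hst] at h2
      obtain ⟨u, v, h3, h4, h5⟩ := ih' i h1 h2
      refine ⟨(c :: l) ++ u, v, ?_, ?_, ?_⟩
      · rw [ex_tok, h3, List.append_assoc]
      · rw [ex_tok, h4, List.append_assoc]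
      · rw [List.length_append, List.length_cons (a := c :: l)]
        have : (c :: l).length ≤ 3 := by
          rcases mem_Tok hb with h | h | h | h
          · simp at h
          · rw [h]; simp
          · rw [h]; simp
          · rw [h]; simp
        omega

lemma Sk_spec (t : ℕ) (σ : List (List ℕ)) (h : σ ∈ Sk t) : σ.length = t ∧ ∀ a ∈ σ, a ∈ Tok := by
  induction t generalizing σ with
  | zero =>
    rw [Sk, Finset.mem_singleton] at h
    subst h
    simp
  | succ t ih =>
    obtain ⟨a, ha, σ, hσ, rfl⟩ := mem_Sk_cons h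
    obtain ⟨h1, h2⟩ := ih σ hσ
    refine ⟨by rw [List.length_cons, h1], fun b hb => ?_⟩
    rcases List.mem_cons.1 hb with h3 | h3
    · rw [h3]; exact ha
    · exact h2 b h3

/-- an exchange doubles the value -/
lemma double (t : ℕ) (σ : List (List ℕ)) (hσ : σ ∈ Sk t) (z : List ℕ) (hz : ∀ a ∈ z, a = 2 ∨ a = 3)
    (hzl : 72 * t ≤ z.length) (n : ℕ) (A : Finset ℕ) (hn : n ∉ A) (h2 : n < stars σ) :
    2 * val (ex σ 0 A ++ z) ≤ val (ex σ 0 (insert n A) ++ z) := by
  obtain ⟨h3, h4⟩ := Sk_spec t σ hσ
  obtain ⟨u, v, h5, h6, h7⟩ := ex_insert σ h4 0 n A hn (Nat.zero_le _) (by omega)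
  have h8 := ex_letters σ h4 0 A
  rw [h5] at h8
  rw [h5, h6]
  have hh := exch u (v ++ z) (fun a ha => by
      have := h8 a (List.mem_append_left _ ha)
      omega) (fun a ha => by
      rcases List.mem_append.1 ha with h | h
      · have := h8 a (List.mem_append_right _ (List.mem_append_right _ h))
        omega
      · have := hz a h
        omega) (by
      rw [List.length_append]
      rw [h3] at h7
      omega)
  simpa only [List.append_assoc] using hh

/-- positivity of the values -/
lemma val_pos (w : List ℕ) (hw : ∀ a ∈ w, a = 2 ∨ a = 3) : 0 < val w := by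
  have hadm : Pool.Agent.H447R2.MZ.Adm w := by
    refine ⟨fun a ha => by have := hw a ha; omega, fun a t h => ?_⟩
    have := hw a (by rw [h]; exact List.mem_cons_self)
    omega
  have hpos : ∀ (w : List ℕ) (n : ℕ), w.length ≤ n → 0 < Pool.Agent.H447R2.MZ.H w n := by
    intro w
    induction w with
    | nil => intro n _; rw [Pool.Agent.H447R2.MZ.H_nil]; norm_num
    | cons a w ih =>
      intro n hn
      rw [List.length_cons] at hn
      rw [Pool.Agent.H447R2.MZ.H_cons]
      refine Finset.sum_pos' (fun m _ => mul_nonneg (by positivity) (Pool.Agent.H447R2.MZ.H_nonneg _ _))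
        ⟨n - 1, Finset.mem_range.2 (by omega), mul_pos (by positivity) (ih _ (by omega))⟩
  exact (hpos w _ le_rfl).trans_le (Pool.Agent.H447R2.MZ.H_le_val w hadm _)

/-- Sperner's theorem for the exchanges -/
lemma sperner (t : ℕ) (σ : List (List ℕ)) (hσ : σ ∈ Sk t) (z : List ℕ) (hz : ∀ a ∈ z, a = 2 ∨ a = 3)
    (hzl : 72 * t ≤ z.length) (x : ℝ) (S : Finset (Finset (Fin (stars σ))))
    (hS : ∀ s ∈ S, x ≤ val (ex σ 0 (s.map Fin.valEmbedding) ++ z) ∧
      val (ex σ 0 (s.map Fin.valEmbedding) ++ z) < 2 * x) :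
    S.card ≤ (stars σ).choose (stars σ / 2) := by
  have hpos : ∀ A, 0 < val (ex σ 0 A ++ z) := fun A => val_pos _ fun a ha => by
    rcases List.mem_append.1 ha with h | h
    · exact ex_letters σ (Sk_spec t σ hσ).2 0 A a h
    · exact hz a h
  -- monotonicity
  have hmono : ∀ (B A : Finset (Fin (stars σ))),
      val (ex σ 0 (A.map Fin.valEmbedding) ++ z) ≤ val (ex σ 0 ((A ∪ B).map Fin.valEmbedding) ++ z) := by
    intro B
    induction B using Finset.induction_on with
    | empty => intro A; rw [Finset.union_empty]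
    | insert n B hn ih =>
      intro A
      refine (ih A).trans ?_
      rw [Finset.union_insert]
      by_cases h : n ∈ A ∪ B
      · rw [Finset.insert_eq_of_mem h]
      · rw [Finset.map_insert]
        have := double t σ hσ z hz hzl (Fin.valEmbedding n) ((A ∪ B).map Fin.valEmbedding) (by
          rw [Finset.mem_map']
          exact h) n.2
        linarith [hpos ((A ∪ B).map Fin.valEmbedding)]
  have hanti : IsAntichain (· ⊆ ·) (S : Set (Finset (Fin (stars σ)))) := by
    intro A hA B hB hne hsub
    obtain ⟨n, hnB, hnA⟩ : ∃ n ∈ B, n ∉ A := by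
      by_contra hcon
      push Not at hcon
      exact hne (Finset.Subset.antisymm hsub hcon)
    have h1 := hmono B (insert n A)
    have h2 : insert n A ∪ B = B := by
      rw [Finset.union_eq_right]
      intro m hm
      rcases Finset.mem_insert.1 hm with h | h
      · rw [h]; exact hnB
      · exact hsub h
    rw [h2, Finset.map_insert] at h1
    have h3 := double t σ hσ z hz hzl (Fin.valEmbedding n) (A.map Fin.valEmbedding) (by
      rw [Finset.mem_map']
      exact hnA) n.2
    have h4 := (hS A hA).1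
    have h5 := (hS B hB).2
    linarith
  have := hanti.sperner
  rwa [Fintype.card_fin] at this

/-- the number of words of weight `k` with a value in `[x, 2x)` is bounded by a sum over skeletons -/
lemma count_le (t k : ℕ) (hk : 223 * t ≤ k) (x : ℝ) (T : Finset (List ℕ))
    (hT : ∀ w ∈ T, w ∈ W k ∧ x ≤ val w ∧ val w < 2 * x) :
    T.card ≤ ∑ σ ∈ Sk t, d (k - wt σ) * (stars σ).choose (stars σ / 2) := by
  classical
  have hsub : T ⊆ (Sk t).biUnion fun σ => (W (k - wt σ)).biUnion fun z =>
      ((Finset.univ : Finset (Finset (Fin (stars σ)))).filter fun s =>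
        x ≤ val (ex σ 0 (s.map Fin.valEmbedding) ++ z) ∧
          val (ex σ 0 (s.map Fin.valEmbedding) ++ z) < 2 * x).image
        fun s => ex σ 0 (s.map Fin.valEmbedding) ++ z := by
    intro w hw
    obtain ⟨h1, h2⟩ := hT w hw
    obtain ⟨σ, hσ, A, hA, z, hz, he⟩ := parse t k 0 w h1 (by omega)
    rw [Finset.mem_biUnion]
    refine ⟨σ, hσ, ?_⟩
    rw [Finset.mem_biUnion]
    refine ⟨z, hz, ?_⟩
    rw [Finset.mem_image]
    have hAm : ((Finset.univ : Finset (Fin (stars σ))).filter fun a : Fin (stars σ) => (a : ℕ) ∈ A).map Fin.valEmbedding = A := by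
      ext n
      rw [Finset.mem_map]
      constructor
      · rintro ⟨a, ha, rfl⟩
        exact (Finset.mem_filter.1 ha).2
      · intro hn
        have h3 := Finset.mem_Ico.1 (hA hn)
        exact ⟨⟨n, by omega⟩, Finset.mem_filter.2 ⟨Finset.mem_univ _, hn⟩, rfl⟩
    refine ⟨(Finset.univ : Finset (Fin (stars σ))).filter fun a : Fin (stars σ) => (a : ℕ) ∈ A, ?_, by rw [hAm, he]⟩
    rw [Finset.mem_filter, hAm, ← he]
    exact ⟨Finset.mem_univ _, h2⟩
  refine (Finset.card_le_card hsub).trans (Finset.card_biUnion_le.trans (Finset.sum_le_sum fun σ hσ => ?_))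
  refine Finset.card_biUnion_le.trans ?_
  rw [d, ← smul_eq_mul]
  refine Finset.sum_le_card_nsmul _ _ _ fun z hz => Finset.card_image_le.trans ?_
  rw [mem_W] at hz
  refine sperner t σ hσ z hz.1 ?_ x _ fun s hs => (Finset.mem_filter.1 hs).2
  have h1 := wt_le t σ hσ
  have h2 : z.sum ≤ 3 * z.length := by
    have h3 : ∀ l : List ℕ, (∀ a ∈ l, a = 2 ∨ a = 3) → l.sum ≤ 3 * l.length := by
      intro l
      induction l with
      | nil => simp
      | cons a l ih =>
        intro h
        have h4 := ih fun b hb => h b (List.mem_cons_of_mem _ hb)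
        have h5 := h a List.mem_cons_self
        rw [List.sum_cons, List.length_cons]
        omega
    exact h3 z hz.1
  omega

/-- the sum over the skeletons -/
lemma sum_le (t : ℕ) : ∀ (k : ℕ) (F : ℕ → ℝ), (∀ j, F (j + 1) ≤ F j) → (∀ j, 0 ≤ F j) → 7 * t + 1 ≤ k →
    ∑ σ ∈ Sk t, (d (k - wt σ) : ℝ) * (2 ^ stars σ * F (stars σ)) ≤ d k * St t F := by
  induction t with
  | zero =>
    intro k F _ _ _
    rw [Sk, Finset.sum_singleton, St_zero]
    simp [wt, stars]
  | succ t ih =>
    intro k F hF hF0 hk
    rw [sum_Sk, sum_Tok, St_succ]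
    have hst0 : ∀ σ : List (List ℕ), stars ([] :: σ) = stars σ + 1 := fun σ => by
      rw [stars, stars, List.count_cons]
      simp
    have hst : ∀ (a : ℕ) (l : List ℕ) (σ : List (List ℕ)), stars ((a :: l) :: σ) = stars σ := fun a l σ => by
      rw [stars, stars, List.count_cons]
      simp
    have hw0 : ∀ σ : List (List ℕ), wt ([] :: σ) = 6 + wt σ := fun σ => by
      rw [wt, wt, List.map_cons, List.sum_cons, wtT, if_pos rfl]
    have hw : ∀ (a : ℕ) (l : List ℕ) (σ : List (List ℕ)), wt ((a :: l) :: σ) = (a :: l).sum + wt σ :=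
      fun a l σ => by
        rw [wt, wt, List.map_cons, List.sum_cons, wtT, if_neg (by simp)]
    have e0 : ∑ σ ∈ Sk t, (d (k - wt ([] :: σ)) : ℝ) * (2 ^ stars ([] :: σ) * F (stars ([] :: σ))) ≤
        2 * (d (k - 6) * St t fun j => F (j + 1)) := by
      have h1 := ih (k - 6) (fun j => F (j + 1)) (fun j => hF (j + 1)) (fun j => hF0 _) (by omega)
      refine le_trans (le_of_eq ?_) (mul_le_mul_of_nonneg_left h1 (by norm_num : (0 : ℝ) ≤ 2))
      rw [Finset.mul_sum]
      refine Finset.sum_congr rfl fun σ _ => ?_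
      rw [hst0, hw0, ← Nat.sub_sub, pow_succ]
      ring
    have e1 : ∀ (a : ℕ) (l : List ℕ) (s : ℕ), (a :: l).sum = s → s ≤ 7 →
        ∑ σ ∈ Sk t, (d (k - wt ((a :: l) :: σ)) : ℝ) * (2 ^ stars ((a :: l) :: σ) * F (stars ((a :: l) :: σ))) ≤
        d (k - s) * St t F := by
      intro a l s hs hs7
      have h1 := ih (k - s) F hF hF0 (by omega)
      refine le_trans (le_of_eq ?_) h1
      refine Finset.sum_congr rfl fun σ _ => ?_
      rw [hst, hw, hs, ← Nat.sub_sub]
    have e2 := e1 3 [2] 5 (by simp) (by norm_num)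
    have e3 := e1 2 [3] 5 (by simp) (by norm_num)
    have e4 := e1 2 [2, 3] 7 (by simp) (by norm_num)
    have hS1 : St t (fun j => F (j + 1)) ≤ St t F := St_mono t _ _ hF
    obtain ⟨n, rfl⟩ : ∃ n, k = n + 8 := ⟨k - 8, by omega⟩
    have hd7 := d_seven (n + 1)
    have hdr := d_ratio n
    rw [show n + 8 - 5 = n + 3 by omega] at e2 e3
    rw [show n + 8 - 6 = n + 2 by omega] at e0
    rw [show n + 8 - 7 = n + 1 by omega] at e4
    have hd7r : (d (n + 8) : ℝ) = 2 * d (n + 2) + 2 * d (n + 3) + d (n + 1) := by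
      have : d (n + 8) = 2 * d (n + 2) + 2 * d (n + 3) + d (n + 1) := hd7
      rw [this]
      push_cast
      ring
    have hdrr : (d (n + 8) : ℝ) ≤ 7 * d (n + 2) := by exact_mod_cast hdr
    have key : (d (n + 8) : ℝ) * (2 / 7 * St t (fun j => F (j + 1)) + 5 / 7 * St t F) -
        (2 * (d (n + 2) * St t fun j => F (j + 1)) + (2 * d (n + 3) + d (n + 1)) * St t F) =
        (2 * d (n + 2) - 2 / 7 * d (n + 8)) * (St t F - St t fun j => F (j + 1)) := by
      have h9 : (2 * (d (n + 3) : ℝ) + d (n + 1)) = d (n + 8) - 2 * d (n + 2) := by rw [hd7r]; ring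
      rw [h9]
      ring
    have h10 : 0 ≤ (2 * (d (n + 2) : ℝ) - 2 / 7 * d (n + 8)) * (St t F - St t fun j => F (j + 1)) :=
      mul_nonneg (by linarith) (by linarith)
    rw [← key] at h10
    linarith

/-- **Concentration, one dyadic interval.** -/
theorem dyadic (k : ℕ) (hk : 1 ≤ k) (x : ℝ) (T : Finset (List ℕ))
    (hT : ∀ w ∈ T, w ∈ W k ∧ x ≤ val w ∧ val w < 2 * x) :
    (T.card : ℝ) ≤ 250 * d k / Real.sqrt k := by
  have hkr : (1 : ℝ) ≤ k := by exact_mod_cast hk
  have hsk : 0 < Real.sqrt k := Real.sqrt_pos.2 (by linarith)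
  have hd0 : (0 : ℝ) ≤ d k := Nat.cast_nonneg _
  rcases Nat.lt_or_ge k 1000 with h | h
  · have h1 : (T.card : ℝ) ≤ d k := by
      exact_mod_cast Finset.card_le_card fun w hw => (hT w hw).1
    refine h1.trans ?_
    rw [le_div_iff₀ hsk]
    have h2 : Real.sqrt k ≤ 250 := by
      rw [Real.sqrt_le_left (by norm_num)]
      have : (k : ℝ) ≤ 1000 := by exact_mod_cast h.le
      linarith
    nlinarith
  · set t := k / 223 with ht
    have ht1 : 1 ≤ t := by omega
    have ht2 : 223 * t ≤ k := Nat.mul_div_le _ _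
    have ht3 : k ≤ 285 * t := by omega
    have h1 := count_le t k ht2 x T hT
    have h2 : (T.card : ℝ) ≤ ∑ σ ∈ Sk t, (d (k - wt σ) : ℝ) * (2 ^ stars σ * F0 (stars σ)) := by
      have h3 : (T.card : ℝ) ≤ ∑ σ ∈ Sk t, (d (k - wt σ) : ℝ) * ((stars σ).choose (stars σ / 2) : ℕ) := by
        exact_mod_cast h1
      exact h3.trans (Finset.sum_le_sum fun σ _ => mul_le_mul_of_nonneg_left (mid_le _) (Nat.cast_nonneg _))
    have h3 := sum_le t k F0 (fun j => F0_anti (Nat.le_succ j)) F0_nonneg (by omega)
    have h4 := St_F0 t ht1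
    have h5 : (d k : ℝ) * St t F0 ≤ d k * (13 / Real.sqrt t) := mul_le_mul_of_nonneg_left h4 hd0
    refine h2.trans (h3.trans (h5.trans ?_))
    rw [mul_comm (250 : ℝ), mul_div_assoc]
    refine mul_le_mul_of_nonneg_left ?_ hd0
    have htr : (0 : ℝ) < t := by exact_mod_cast ht1
    rw [div_le_div_iff₀ (Real.sqrt_pos.2 htr) hsk]
    have h6 : Real.sqrt k ≤ 17 * Real.sqrt t := by
      rw [Real.sqrt_le_left (by positivity), mul_pow, Real.sq_sqrt htr.le]
      have : (k : ℝ) ≤ 285 * t := by exact_mod_cast ht3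
      linarith
    nlinarith [Real.sqrt_nonneg (t : ℝ)]

end Pool.Agent.L7h24.RT
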