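import Mathlib
import Pool.Agent.L7h24.RT.Cn

/-!
# Almost all tuples of words of weight `k` satisfy no relation of small height
-/

set_option autoImplicit false

namespace Pool.Agent.L7h24.RT

open Pool.Agent.H447R2.MZ (val)

/-- several dyadic intervals -/
lemma several (k : ℕ) (hk : 1 ≤ k) (n : ℕ) : ∀ (x : ℝ) (T : Finset (List ℕ)),
    (∀ w ∈ T, w ∈ W k ∧ x ≤ val w ∧ val w < 2 ^ n * x) →
    (T.card : ℝ) ≤ n * (250 * d k / Real.sqrt k) := by
  classical
  induction n with
  | zero =>
    intro x T hT
    have : T = ∅ := by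
      rw [Finset.eq_empty_iff_forall_notMem]
      intro w hw
      have h := hT w hw
      rw [pow_zero, one_mul] at h
      linarith [h.2.1, h.2.2]
    rw [this]
    simp
  | succ n ih =>
    intro x T hT
    have h1 := ih x (T.filter fun w => val w < 2 ^ n * x) fun w hw => by
      rw [Finset.mem_filter] at hw
      exact ⟨(hT w hw.1).1, (hT w hw.1).2.1, hw.2⟩
    have h2 := dyadic k hk (2 ^ n * x) (T.filter fun w => ¬ val w < 2 ^ n * x) fun w hw => by
      rw [Finset.mem_filter, not_lt] at hw
      refine ⟨(hT w hw.1).1, hw.2, ?_⟩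
      have := (hT w hw.1).2.2
      rw [pow_succ] at this
      linarith
    have h3 : (T.card : ℝ) = (T.filter fun w => val w < 2 ^ n * x).card +
        (T.filter fun w => ¬ val w < 2 ^ n * x).card := by
      rw [← Nat.cast_add, Finset.card_filter_add_card_filter_not]
    rw [h3]
    push_cast
    linarith

/-- **Concentration.** The number of words of weight `k` with a value in `[x / R, R x]`. -/
theorem conc (k : ℕ) (hk : 1 ≤ k) (x R : ℝ) (hx : 0 < x) (hR : 2 ≤ R) (T : Finset (List ℕ))
    (hT : ∀ w ∈ T, w ∈ W k ∧ x / R ≤ val w ∧ val w ≤ R * x) :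
    (T.card : ℝ) ≤ 1200 * Real.log R * d k / Real.sqrt k := by
  have hR0 : 0 < R := by linarith
  have hl2 : 0 < Real.log 2 := Real.log_pos (by norm_num)
  have hl2' : (0.6931471803 : ℝ) < Real.log 2 := Real.log_two_gt_d9
  have hlR : Real.log 2 ≤ Real.log R := Real.log_le_log (by norm_num) hR
  have hlR0 : 0 ≤ Real.log R := hl2.le.trans hlR
  set n := ⌊2 * Real.log R / Real.log 2⌋₊ + 1 with hn
  have h1 : 2 * Real.log R / Real.log 2 < n := by
    rw [hn]
    push_cast
    exact Nat.lt_floor_add_one _
  have h2 : (n : ℝ) ≤ 2 * Real.log R / Real.log 2 + 1 := by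
    rw [hn]
    push_cast
    linarith [Nat.floor_le (show 0 ≤ 2 * Real.log R / Real.log 2 by positivity)]
  have h3 : R ^ 2 < 2 ^ n := by
    rw [div_lt_iff₀ hl2] at h1
    have h4 : Real.log (R ^ 2) < Real.log (2 ^ n) := by
      rw [Real.log_pow, Real.log_pow]
      push_cast
      linarith
    exact (Real.log_lt_log_iff (by positivity) (by positivity)).1 h4
  have h4 := several k hk n (x / R) T fun w hw => by
    refine ⟨(hT w hw).1, (hT w hw).2.1, lt_of_le_of_lt (hT w hw).2.2 ?_⟩
    have h5 : R * x = R ^ 2 * (x / R) := by field_simp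
    rw [h5]
    exact mul_lt_mul_of_pos_right h3 (by positivity)
  refine h4.trans ?_
  have h5 : (n : ℝ) ≤ 4.5 * Real.log R := by
    refine h2.trans ?_
    have h6 : 2 * Real.log R / Real.log 2 ≤ 3 * Real.log R := by
      rw [div_le_iff₀ hl2]
      nlinarith
    linarith
  have h6 : 0 ≤ 250 * (d k : ℝ) / Real.sqrt k := by positivity
  calc (n : ℝ) * (250 * d k / Real.sqrt k) ≤ 4.5 * Real.log R * (250 * d k / Real.sqrt k) :=
        mul_le_mul_of_nonneg_right h5 h6
    _ = 1125 * Real.log R * d k / Real.sqrt k := by ring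
    _ ≤ _ := by
        apply div_le_div_of_nonneg_right _ (Real.sqrt_nonneg _)
        have : 0 ≤ Real.log R * (d k : ℝ) := by positivity
        nlinarith

/-- separated values admit no relation -/
lemma sep {r : ℕ} (v c : Fin r → ℝ) (hv : ∀ i, 0 < v i) (B : ℝ) (hB : 1 ≤ B) (hr : 1 ≤ r)
    (hc : ∀ i, c i = 0 ∨ 1 ≤ |c i| ∧ |c i| ≤ B)
    (hs : ∀ i j, i < j → v i < v j / (2 * r * B) ∨ 2 * r * B * v j < v i) (i : Fin r) (hi : c i ≠ 0) :
    v i / 2 ≤ |∑ j, c j * v j| := by
  classical
  have hrr : (1 : ℝ) ≤ r := by exact_mod_cast hr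
  have hR0 : 0 < 2 * (r : ℝ) * B := by positivity
  -- the largest value with a nonzero coefficient
  obtain ⟨m, hm, hmax⟩ := Finset.exists_max_image (Finset.univ.filter fun j => c j ≠ 0) v
    ⟨i, Finset.mem_filter.2 ⟨Finset.mem_univ _, hi⟩⟩
  rw [Finset.mem_filter] at hm
  have hvi : v i ≤ v m := hmax i (Finset.mem_filter.2 ⟨Finset.mem_univ _, hi⟩)
  have hsmall : ∀ j, j ≠ m → |c j * v j| ≤ v m / (2 * r) := by
    intro j hj
    rcases hc j with h0 | ⟨h1, h2⟩
    · rw [h0, zero_mul, abs_zero]
      have := hv m
      positivity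
    · have hj0 : c j ≠ 0 := by
        intro h
        rw [h, abs_zero] at h1
        linarith
      have hle : v j ≤ v m := hmax j (Finset.mem_filter.2 ⟨Finset.mem_univ _, hj0⟩)
      have hR1 : 1 ≤ 2 * (r : ℝ) * B := by nlinarith
      have hlt : v j * (2 * r * B) ≤ v m := by
        rcases lt_or_gt_of_ne hj with h | h
        · rcases hs j m h with h3 | h3
          · rw [lt_div_iff₀ hR0] at h3
            exact h3.le
          · have := hv m
            nlinarith
        · rcases hs m j h with h3 | h3
          · rw [lt_div_iff₀ hR0] at h3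
            have := hv m
            nlinarith
          · linarith
      rw [abs_mul, abs_of_pos (hv j), le_div_iff₀ (by positivity)]
      have h5 : |c j| * v j * (2 * r) ≤ B * v j * (2 * r) := by
        have := hv j
        gcongr
      nlinarith
  have hsum : ∑ j, c j * v j = c m * v m + ∑ j ∈ Finset.univ.erase m, c j * v j :=
    (Finset.add_sum_erase Finset.univ (fun j => c j * v j) (Finset.mem_univ m)).symm
  have hrest : |∑ j ∈ Finset.univ.erase m, c j * v j| ≤ v m / 2 := by
    refine (Finset.abs_sum_le_sum_abs _ _).trans ?_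
    calc ∑ j ∈ Finset.univ.erase m, |c j * v j| ≤ ∑ _j ∈ Finset.univ.erase m, v m / (2 * r) :=
          Finset.sum_le_sum fun j hj => hsmall j (Finset.ne_of_mem_erase hj)
      _ ≤ (r : ℝ) * (v m / (2 * r)) := by
          rw [Finset.sum_const, nsmul_eq_mul]
          apply mul_le_mul_of_nonneg_right _ (by have := hv m; positivity)
          have : (Finset.univ.erase m).card ≤ r := by
            refine (Finset.card_le_card (Finset.erase_subset _ _)).trans ?_
            rw [Finset.card_univ, Fintype.card_fin]
          exact_mod_cast this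
      _ = v m / 2 := by field_simp
  have hmain : v m ≤ |c m * v m| := by
    rw [abs_mul, abs_of_pos (hv m)]
    rcases hc m with h | h
    · exact absurd h hm.2
    · have := hv m
      nlinarith [h.1]
  rw [hsum]
  have h7 : |c m * v m| - |∑ j ∈ Finset.univ.erase m, c j * v j| ≤
      |c m * v m + ∑ j ∈ Finset.univ.erase m, c j * v j| := by
    have := abs_sub_abs_le_abs_sub (c m * v m) (-(∑ j ∈ Finset.univ.erase m, c j * v j))
    rw [abs_neg, sub_neg_eq_add] at this
    exact this
  linarith

/-- **Tuples.** -/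
theorem tuples (k r : ℕ) (hk : 1 ≤ k) (hr : 1 ≤ r) (B : ℝ) (hB : 1 ≤ B) (T : Finset (Fin r → List ℕ))
    (hT : ∀ w ∈ T, (∀ i, w i ∈ W k) ∧ ∃ c : Fin r → ℝ, (∀ i, c i = 0 ∨ 1 ≤ |c i| ∧ |c i| ≤ B) ∧
      ∃ i, c i ≠ 0 ∧ |∑ j, c j * val (w j)| < val (w i) / 2) :
    (T.card : ℝ) ≤ 600 * (r : ℝ) ^ 2 * Real.log (2 * r * B) / Real.sqrt k * (d k : ℝ) ^ r := by
  classical
  have hrr : (1 : ℝ) ≤ r := by exact_mod_cast hr
  set R : ℝ := 2 * r * B with hRdef
  have hR : 2 ≤ R := by rw [hRdef]; nlinarith
  have hR0 : 0 < R := by linarith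
  have hlR : 0 ≤ Real.log R := Real.log_nonneg (by linarith)
  set all : Finset (Fin r → List ℕ) := Fintype.piFinset fun _ => W k with hall
  -- bad pairs
  let bad : Fin r × Fin r → Finset (Fin r → List ℕ) := fun p =>
    all.filter fun w => val (w p.2) / R ≤ val (w p.1) ∧ val (w p.1) ≤ R * val (w p.2)
  have hsub : T ⊆ ((Finset.univ : Finset (Fin r × Fin r)).filter fun p => p.1 < p.2).biUnion bad := by
    intro w hw
    obtain ⟨h1, c, hc, i, hi, hlt⟩ := hT w hw
    by_contra hcon
    rw [Finset.mem_biUnion] at hcon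
    push Not at hcon
    have hs : ∀ a b : Fin r, a < b → val (w a) < val (w b) / R ∨ R * val (w b) < val (w a) := by
      intro a b hab
      by_contra h
      push Not at h
      exact hcon (a, b) (Finset.mem_filter.2 ⟨Finset.mem_univ _, hab⟩)
        (Finset.mem_filter.2 ⟨Fintype.mem_piFinset.2 h1, h.1, h.2⟩)
    have := sep (fun j => val (w j)) c (fun j => val_pos _ ((mem_W _ _).1 (h1 j)).1) B hB hr hc hs i hi
    linarith
  -- the size of one bad set
  have hbad : ∀ p : Fin r × Fin r, p.1 < p.2 →
      ((bad p).card : ℝ) ≤ 1200 * Real.log R / Real.sqrt k * (d k : ℝ) ^ r := by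
    rintro ⟨a, b⟩ hab
    have hab' : a ≠ b := ne_of_lt hab
    -- fibres over the tuple with the entry `a` replaced
    have hfib : (bad (a, b)).card ≤ ∑ u ∈ Fintype.piFinset (fun j => if j = a then ({[]} : Finset (List ℕ)) else W k),
        ((bad (a, b)).filter fun w => Function.update w a [] = u).card := by
      rw [← Finset.card_eq_sum_card_fiberwise]
      intro w hw
      have h1 := (Finset.mem_filter.1 hw).1
      rw [hall, Fintype.mem_piFinset] at h1
      refine Fintype.mem_piFinset.2 fun j => ?_
      by_cases h : j = a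
      · subst h
        simp
      · show Function.update w a [] j ∈ _
        rw [if_neg h, Function.update_of_ne h]
        exact h1 j
    have hone : ∀ u ∈ Fintype.piFinset (fun j => if j = a then ({[]} : Finset (List ℕ)) else W k),
        (((bad (a, b)).filter fun w => Function.update w a [] = u).card : ℝ) ≤
          1200 * Real.log R * d k / Real.sqrt k := by
      intro u hu
      rw [Fintype.mem_piFinset] at hu
      have hub : u b ∈ W k := by
        have := hu b
        rwa [if_neg (Ne.symm hab')] at this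
      have hinj : Set.InjOn (fun w : Fin r → List ℕ => w a)
          ((bad (a, b)).filter fun w => Function.update w a [] = u : Finset (Fin r → List ℕ)) := by
        intro w hw w' hw' h
        have h1 := (Finset.mem_filter.1 hw).2
        have h2 := (Finset.mem_filter.1 hw').2
        funext j
        by_cases hj : j = a
        · rw [hj]; exact h
        · have h3 := congrFun h1 j
          have h4 := congrFun h2 j
          rw [Function.update_of_ne hj] at h3 h4
          rw [h3, h4]
      rw [← Finset.card_image_of_injOn hinj]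
      refine conc k hk (val (u b)) R (val_pos _ ((mem_W _ _).1 hub).1) hR _ fun v hv => ?_
      rw [Finset.mem_image] at hv
      obtain ⟨w, hw, rfl⟩ := hv
      obtain ⟨h1, h2⟩ := Finset.mem_filter.1 hw
      obtain ⟨h3, h4⟩ := Finset.mem_filter.1 h1
      have h5 := congrFun h2 b
      rw [Function.update_of_ne (Ne.symm hab')] at h5
      rw [← h5]
      rw [hall, Fintype.mem_piFinset] at h3
      exact ⟨h3 a, h4.1, h4.2⟩
    have hcard : ((Fintype.piFinset (fun j => if j = a then ({[]} : Finset (List ℕ)) else W k)).card : ℝ) =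
        (d k : ℝ) ^ (r - 1) := by
      rw [Fintype.card_piFinset]
      have h1 : ∀ j : Fin r, (if j = a then ({[]} : Finset (List ℕ)) else W k).card = if j = a then 1 else d k := by
        intro j
        split_ifs
        · simp
        · rfl
      simp only [h1]
      rw [Finset.prod_ite, Finset.prod_const_one, one_mul, Finset.prod_const]
      push_cast
      congr 1
      rw [Finset.filter_ne', Finset.card_erase_of_mem (Finset.mem_univ _), Finset.card_univ, Fintype.card_fin]
    have h1 : ((bad (a, b)).card : ℝ) ≤ (d k : ℝ) ^ (r - 1) * (1200 * Real.log R * d k / Real.sqrt k) := by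
      have h2 : ((bad (a, b)).card : ℝ) ≤ ∑ u ∈ Fintype.piFinset (fun j => if j = a then ({[]} : Finset (List ℕ)) else W k),
          (((bad (a, b)).filter fun w => Function.update w a [] = u).card : ℝ) := by
        exact_mod_cast hfib
      refine h2.trans ((Finset.sum_le_card_nsmul _ _ _ hone).trans ?_)
      rw [nsmul_eq_mul, hcard]
    refine h1.trans (le_of_eq ?_)
    have h3 : (d k : ℝ) ^ r = (d k : ℝ) ^ (r - 1) * d k := by
      rw [← pow_succ]
      congr 1
      omega
    rw [h3]
    ring
  -- the number of pairs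
  have hpairs : ((((Finset.univ : Finset (Fin r × Fin r)).filter fun p => p.1 < p.2).card : ℕ) : ℝ) ≤ (r : ℝ) ^ 2 / 2 := by
    have h1 : ((Finset.univ : Finset (Fin r × Fin r)).filter fun p => p.1 < p.2).card =
        ((Finset.univ : Finset (Fin r × Fin r)).filter fun p => p.2 < p.1).card := by
      refine Finset.card_bij (fun p _ => (p.2, p.1)) ?_ ?_ ?_
      · intro p hp
        simpa using hp
      · rintro ⟨a, b⟩ _ ⟨c, d⟩ _ h
        simp only [Prod.mk.injEq] at h
        exact Prod.ext h.2 h.1
      · rintro ⟨a, b⟩ hp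
        exact ⟨(b, a), by simpa using hp, rfl⟩
    have h2 : ((Finset.univ : Finset (Fin r × Fin r)).filter fun p => p.1 < p.2).card +
        ((Finset.univ : Finset (Fin r × Fin r)).filter fun p => p.2 < p.1).card ≤ r ^ 2 := by
      rw [← Finset.card_union_of_disjoint]
      · refine (Finset.card_le_card (Finset.subset_univ _)).trans ?_
        rw [Finset.card_univ, Fintype.card_prod, Fintype.card_fin, pow_two]
      · rw [Finset.disjoint_filter]
        intro p _ h3 h4
        exact absurd h3 (not_lt.2 h4.le)
    have h3 : ((((Finset.univ : Finset (Fin r × Fin r)).filter fun p => p.1 < p.2).card : ℕ) : ℝ) +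
        ((((Finset.univ : Finset (Fin r × Fin r)).filter fun p => p.2 < p.1).card : ℕ) : ℝ) ≤ (r : ℝ) ^ 2 := by
      exact_mod_cast h2
    rw [← h1] at h3
    linarith
  have h1 : (T.card : ℝ) ≤ ∑ p ∈ (Finset.univ : Finset (Fin r × Fin r)).filter (fun p => p.1 < p.2), ((bad p).card : ℝ) := by
    exact_mod_cast (Finset.card_le_card hsub).trans Finset.card_biUnion_le
  have h2 := Finset.sum_le_card_nsmul ((Finset.univ : Finset (Fin r × Fin r)).filter (fun p => p.1 < p.2))
    (fun p => ((bad p).card : ℝ)) _ fun p hp => hbad p (Finset.mem_filter.1 hp).2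
  refine h1.trans (h2.trans ?_)
  rw [nsmul_eq_mul]
  have h3 : 0 ≤ 1200 * Real.log R / Real.sqrt k * (d k : ℝ) ^ r := by positivity
  refine (mul_le_mul_of_nonneg_right hpairs h3).trans (le_of_eq ?_)
  ring

end Pool.Agent.L7h24.RT
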